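import Pool.Agent.J6H28.GD.Fin

set_option autoImplicit false

/-!
# The distribution of the least prime in Goldbach representations

For an even `m ≥ 4` let `g m` be the least prime `p` such that `m - p` is prime (`⊤` if there is none),
and let `N X t` be the number of the even integers `4 ≤ m ≤ X` with `g m ≤ t`. The distribution of the
values of `g` is determined up to constants, uniformly in `t`:

* `N X t ∼ (π(t) - 1) X / log X` as long as `π(t) = o(log X)`;
* `N X t ≥ c X min (1, π(t) / log X)` for all `t ≥ 3` (the upper bound of this form is trivial).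

So `log X log log X` is the exact order of magnitude of a typical value of `g`: for every `κ > 0` a
positive proportion of the even integers has `g m ≤ κ log m log log m`, while, for `κ < 1 / 2`, a proportion
of at least `1 - 2 κ` of the even integers has `g m > κ log m log log m`. The bound asked for in the problem
is `g m ≤ C (log n) ^ 2 log log n` for all even `m ≤ n`.

Proof: the second moment of the number of representations of `m` as a sum of a prime up to `t` and a prime
(Cauchy and Schwarz), with the upper bound sieve for pairs of primes with a given difference (starting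
library, `Pool.Agent.H197R2.PG`), the mean value of the singular series over the differences of the primes
up to `t` (by the Brun-Titchmarsh inequality, `Pool.Agent.Helper602.MK`), and the prime number theorem.
-/

namespace Pool.Agent.Results.MP_bae66e_nt.DistributionOfLeastPrime

open Finset
open Pool.Agent.J6H28.GD

open Classical in
/-- **The distribution of the least prime in Goldbach representations.**

(1) For every `ε > 0` there are `δ > 0` and `X₀` such that `N X t = (π(t) - 1) (X / log X) (1 + O(ε))` for all
`X ≥ X₀` and all real `t ≥ 3` with `π(t) ≤ δ log X`.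
(2) There are `c > 0` and `X₀` such that `N X t ≥ c X min (1, π(t) / log X)` for all `X ≥ X₀` and `t ≥ 3`.
(3) For every `κ > 0` a positive proportion of the even integers has `g m ≤ κ log m log log m`.
(4) For `κ > 0`, `ε > 0` and all large `X` at least `(1 / 2 - κ - ε) X` even integers `4 ≤ m ≤ X` do not have
`g m ≤ κ log m log log m`. -/
theorem result :
    (∀ ε : ℝ, 0 < ε → ∃ δ : ℝ, 0 < δ ∧ ∃ X₀ : ℕ, ∀ X : ℕ, X₀ ≤ X → ∀ t : ℝ, 3 ≤ t →
      pi t ≤ δ * Real.log X →
      |(N X t : ℝ) - (pi t - 1) * (X / Real.log X)| ≤ ε * ((pi t - 1) * (X / Real.log X))) ∧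
    (∃ c : ℝ, 0 < c ∧ ∃ X₀ : ℕ, ∀ X : ℕ, X₀ ≤ X → ∀ t : ℝ, 3 ≤ t →
      c * X * min 1 (pi t / Real.log X) ≤ N X t) ∧
    (∀ κ : ℝ, 0 < κ → ∃ c : ℝ, 0 < c ∧ ∃ X₀ : ℕ, ∀ X : ℕ, X₀ ≤ X →
      c * X ≤ #{m ∈ Icc 4 X | Even m ∧ AtMost m (κ * (Real.log m * Real.log (Real.log m)))}) ∧
    (∀ κ : ℝ, 0 < κ → ∀ ε : ℝ, 0 < ε → ∃ X₀ : ℕ, ∀ X : ℕ, X₀ ≤ X →
      (1 / 2 - κ - ε) * X ≤
        #{m ∈ Icc 4 X | Even m ∧ ¬ AtMost m (κ * (Real.log m * Real.log (Real.log m)))}) :=
  ⟨part_one, part_two, part_three, part_four⟩

end Pool.Agent.Results.MP_bae66e_nt.DistributionOfLeastPrime
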