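import Pool.Agent.H362R2.RQ.Fin
import Pool.Agent.J6H13.GW.Every

/-! # Every odd prime up to the known lower bound for the largest least summand is a least summand

Let `F(x) = log x (log₂ x)³ log₄ x / (log₃ x)²`.  There is `c > 0` such that for all large `X` and EVERY odd prime
`p ≤ c F(X)` there are at least `X ^ (9 / 10)` even numbers `m ∈ (X, 5 X]` with `g(m) = p`, and for these `m` the prime
`p` is even the ONLY prime `≤ c F(X)` such that `m - p` is prime.

Proof.  The differences `a - r`, `r ≤ c F(X)` prime, of a number `a = p + q` (`q` a prime such that `a` has no odd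
prime factors `≤ log a / 1000` up to a thin set; from the theorem on the primes in the classes modulo the product of
the primes up to a constant times the logarithm) are covered by residue classes `b_p` modulo the primes
`≤ log X / 1000` up to `c₃ log X` of them, none of which contains `q` (Rankin's method with an upper bound sieve, see
`Pool.Agent.J6H13.GW.rsurvG`).  In the class of the numbers `n` belonging to these `b_p` all the numbers `n + s`, `s`
one of the remaining differences, become composite with the weights of `Pool.Agent.H312R2.RG` (starting files), and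
these weights cost nothing compared with one condition `n + q` prime.  Then `m = n + a`. -/

set_option autoImplicit false

namespace Pool.Agent.Results.MP_bae66e_nt.EveryPrimeIsLeast

open Finset

/-- `F(x) = log x (log₂ x)³ log₄ x / (log₃ x)²` -/
noncomputable def F (x : ℝ) : ℝ :=
  Real.log x * (Real.log (Real.log x)) ^ 3 * Real.log (Real.log (Real.log (Real.log x))) /
    (Real.log (Real.log (Real.log x))) ^ 2

/-- `p` is the least prime such that `m - p` is prime, and the next such prime (if any) is larger than `z` -/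
def OnlySummand (m p : ℕ) (z : ℝ) : Prop :=
  IsLeast {r : ℕ | r.Prime ∧ (m - r).Prime} p ∧ ∀ r : ℕ, r.Prime → (m - r).Prime → (r : ℝ) ≤ z → r = p

theorem F_eq (x : ℝ) : F x = Pool.Agent.J6H13.GW.ffG x := by
  unfold F Pool.Agent.J6H13.GW.ffG Pool.Agent.H256R2.SC.ff
  ring

theorem result : ∃ c : ℝ, 0 < c ∧ ∃ X₀ : ℝ, ∀ X : ℝ, X₀ ≤ X → ∀ p : ℕ, p.Prime → p ≠ 2 → (p : ℝ) ≤ c * F X →
    X ^ (9 / 10 : ℝ) ≤ ({m : ℕ | Even m ∧ X < m ∧ (m : ℝ) ≤ 5 * X ∧ OnlySummand m p (c * F X)}.ncard : ℝ) := by
  classical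
  obtain ⟨δ, hδ, X₀, h⟩ := Pool.Agent.J6H13.GW.every_of Pool.Agent.H378R2.bvrel_holds
    (Pool.Agent.J6H13.GW.one_of Pool.Agent.H378R2.sieveAsymp_holds Pool.Agent.H378R2.bvrel_holds
      Pool.Agent.H312R2.RG.weights)
  refine ⟨δ, hδ, max X₀ 0, fun X hX p hp hp2 hpX => ?_⟩
  have hX0 : 0 ≤ X := (le_max_right _ _).trans hX
  rw [F_eq] at hpX ⊢
  refine (h X ((le_max_left _ _).trans hX) p hp hp2 hpX).trans ?_
  unfold Pool.Agent.J6H13.GW.cntG
  apply Nat.cast_le.2
  rw [← Set.ncard_coe_finset]
  apply Set.ncard_le_ncard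
  · intro m hm
    rw [mem_coe, mem_filter, mem_range] at hm
    obtain ⟨h1, h2, h3, h4⟩ := hm
    have hm5 : (m : ℝ) ≤ 5 * X := (Nat.le_floor_iff (by positivity)).1 (by omega)
    have hmp : (m - p).Prime := (h4 p hp hpX).2 (mem_singleton_self p)
    have huniq : ∀ r : ℕ, r.Prime → (m - r).Prime → (r : ℝ) ≤ δ * Pool.Agent.J6H13.GW.ffG X → r = p :=
      fun r hr hmr hrX => mem_singleton.1 ((h4 r hr hrX).1 hmr)
    refine ⟨h2, h3, hm5, ⟨⟨hp, hmp⟩, ?_⟩, huniq⟩
    rintro r ⟨hr, hmr⟩
    by_contra hlt
    push Not at hlt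
    have : (r : ℝ) ≤ p := by exact_mod_cast hlt.le
    have := huniq r hr hmr (this.trans hpX)
    omega
  · apply (Set.finite_Iic ⌊5 * X⌋₊).subset
    rintro m ⟨-, -, hm, -⟩
    exact Nat.le_floor hm

end Pool.Agent.Results.MP_bae66e_nt.EveryPrimeIsLeast
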