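import Pool.Agent.J6H13.GW.Fin
import Pool.Agent.J6H13.GW.Asm

/-! # Exact sets of small summands in Goldbach representations

Let `F(x) = log x (log₂ x)³ log₄ x / (log₃ x)²`.  For an even `m` the small summands of `m` are the primes `p ≤ z` with
`m - p` prime, `z = δ F(X)`.

For every set `V` of at least `N(k)` primes `≤ δ(k) F(X)` there is `s ∈ [k, C k]` such that a proportion
`(c / s) ^ s` of the `s`-element subsets `S` of `V` are exactly the set of the small summands of at least `X ^ (7 / 8)`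
even numbers `m ∈ (X, 5 X]`. -/

set_option autoImplicit false

namespace Pool.Agent.Results.MP_bae66e_nt.ExactSmallSummands

open Finset

/-- `F(x) = log x (log₂ x)³ log₄ x / (log₃ x)²` -/
noncomputable def F (x : ℝ) : ℝ :=
  Real.log x * (Real.log (Real.log x)) ^ 3 * Real.log (Real.log (Real.log (Real.log x))) /
    (Real.log (Real.log (Real.log x))) ^ 2

open Classical in
/-- the even numbers in `(X, 5 X]` -/
noncomputable def evens (X : ℝ) : Finset ℕ :=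
  (range (⌊5 * X⌋₊ + 1)).filter (fun m : ℕ => X < m ∧ Even m)

/-- the primes `p ≤ z` with `m - p` prime -/
def small (m : ℕ) (z : ℝ) : Set ℕ := {p | p.Prime ∧ (p : ℝ) ≤ z ∧ (m - p).Prime}

open Classical in
/-- the number of the even `m ∈ (X, 5 X]` whose set of summands up to `z` is `S` -/
noncomputable def mult (X z : ℝ) (S : Finset ℕ) : ℕ := ((evens X).filter (fun m => small m z = (S : Set ℕ))).card

theorem F_eq (x : ℝ) : F x = Pool.Agent.J6H13.GW.ffG x := by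
  unfold F Pool.Agent.J6H13.GW.ffG Pool.Agent.H256R2.SC.ff
  ring

theorem cnt_le (z X : ℝ) (S : Finset ℕ) (hS : ∀ p ∈ S, p.Prime ∧ (p : ℝ) ≤ z) :
    Pool.Agent.J6H13.GW.cntG z X S ≤ mult X z S := by
  classical
  unfold Pool.Agent.J6H13.GW.cntG mult evens
  apply card_le_card
  intro m hm
  rw [mem_filter] at hm
  rw [mem_filter, mem_filter]
  refine ⟨⟨hm.1, hm.2.2.1, hm.2.1⟩, ?_⟩
  ext p
  constructor
  · rintro ⟨h1, h2, h3⟩
    exact mem_coe.2 ((hm.2.2.2 p h1 h2).1 h3)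
  · intro h
    obtain ⟨h1, h2⟩ := hS p (mem_coe.1 h)
    exact ⟨h1, h2, (hm.2.2.2 p h1 h2).2 (mem_coe.1 h)⟩

open Classical in
theorem result : ∃ (c : ℝ) (C : ℕ), 0 < c ∧ ∀ k : ℕ, 1 ≤ k → ∃ (N : ℕ) (δ X₀ : ℝ), 0 < δ ∧
    ∀ X : ℝ, X₀ ≤ X → ∀ V : Finset ℕ, N ≤ V.card → (∀ p ∈ V, p.Prime ∧ (p : ℝ) ≤ δ * F X) →
      ∃ s : ℕ, k ≤ s ∧ s ≤ C * k ∧ (c / s) ^ s * ((V.card).choose s : ℝ) ≤
        ((V.powersetCard s).filter (fun S => X ^ (7 / 8 : ℝ) ≤ (mult X (δ * F X) S : ℝ))).card := by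
  obtain ⟨c, C, hc, h⟩ := Pool.Agent.J6H13.GW.main_ofG Pool.Agent.J6H13.GW.stGW
  refine ⟨c, C, hc, fun k hk => ?_⟩
  obtain ⟨N, δ, X₀, hδ, h⟩ := h k hk
  refine ⟨N, δ, X₀, hδ, fun X hX V hV hVp => ?_⟩
  rw [F_eq] at hVp
  obtain ⟨s, h1, h2, h3⟩ := h X hX V hV hVp
  refine ⟨s, h1, h2, h3.trans ?_⟩
  apply Nat.cast_le.2
  apply card_le_card
  intro S hS
  rw [mem_filter] at hS ⊢
  refine ⟨hS.1, ?_⟩
  have h4 := hS.2
  unfold Pool.Agent.J6H13.GW.GX at h4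
  rw [F_eq]
  refine h4.trans ?_
  exact_mod_cast cnt_le _ X S (fun p hp => hVp p ((mem_powersetCard.1 hS.1).1 hp))

end Pool.Agent.Results.MP_bae66e_nt.ExactSmallSummands
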