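import Pool.Agent.J6H61.GL.Gold

set_option autoImplicit false

/-!
# Goldbach representations with a large least prime

For an even `m ≥ 4` let `g m` be the least prime `p` such that `m - p` is prime (`⊤` if there is none). A
typical value of `g m` has the order of `log m log log m`. Here the upper tail of its distribution is
bounded from below, uniformly:

* for every `K` a positive proportion of the even integers has `g m > K log m log log m`; the proportion is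
  at least `exp (-exp (C K))`, uniformly for `1 ≤ K ≤ c log log X`, so that there are
  `X exp (-(log X) ^ (C c))` even integers `m ≤ X` with `g m > c log m (log log m) ^ 2`;
* the same holds in short intervals far out: among the `n ∈ (M, M + X]`, `M ≥ √X`, at least
  `X exp (-exp (C K))` have `g (a + q n) > t` if `π(t) ≤ K (φ(q) / q) log X`, for even `a` and even moduli
  `q ≤ log X` (uniformly in `K ≤ c log log X`), and for even moduli `q ≤ X ^ B`, `a ≤ q` if `K` is fixed.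

In all these results the primes `p` for which `m + p` is prime are large as well.

Proof: the covering sieve of the starting library (`Pool.Agent.N837.LP`) for the linear forms
`a + q n ± p`, `p ≤ t`; it is made uniform in the number of the forms in `Pool.Agent.J6H61.GL.Uni`.
-/

namespace Pool.Agent.Results.MP_bae66e_nt.LargeLeastPrimes

/-- The least prime `p` such that `m = p + r` with `r` prime; `⊤` if there is none. -/
noncomputable def g (m : ℕ) : ℕ∞ :=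
  sInf {a : ℕ∞ | ∃ p r : ℕ, p.Prime ∧ r.Prime ∧ p + r = m ∧ a = (p : ℕ∞)}

/-- The least prime `p` such that `m + p` is prime; `⊤` if there is none. -/
noncomputable def h (m : ℕ) : ℕ∞ :=
  sInf {a : ℕ∞ | ∃ p r : ℕ, p.Prime ∧ r.Prime ∧ m + p = r ∧ a = (p : ℕ∞)}

/-- `a > t` for an `a` which is a natural number or `⊤`. -/
def Exceeds (a : ℕ∞) (t : ℝ) : Prop := ∀ b : ℕ, a = (b : ℕ∞) → t < b

/-- The number of the integers `n` with `M < n ≤ M + X` such that both `g` and `h` exceed `t` at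
`a + q n`. -/
noncomputable def R (M X t : ℝ) (q a : ℕ) : ℕ :=
  {n : ℕ | M < n ∧ (n : ℝ) ≤ M + X ∧ Exceeds (g (a + q * n)) t ∧ Exceeds (h (a + q * n)) t}.ncard

/-- The number of the even `m` with `4 ≤ m ≤ X` such that both `g m` and `h m` exceed
`K log m log log m`. -/
noncomputable def T (X K : ℝ) : ℕ :=
  {m : ℕ | Even m ∧ 4 ≤ m ∧ (m : ℝ) ≤ X ∧ Exceeds (g m) (K * (Real.log m * Real.log (Real.log m))) ∧
    Exceeds (h m) (K * (Real.log m * Real.log (Real.log m)))}.ncard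

theorem exceeds_sInf {S : Set ℕ} {t : ℝ} (hS : ∀ p ∈ S, t < (p : ℝ)) :
    Exceeds (sInf {a : ℕ∞ | ∃ p ∈ S, a = (p : ℕ∞)}) t := by
  intro b hb
  by_cases hne : ({a : ℕ∞ | ∃ p ∈ S, a = (p : ℕ∞)} : Set ℕ∞).Nonempty
  · obtain ⟨p, hp, hpe⟩ := csInf_mem hne
    rw [hb] at hpe
    have : b = p := by exact_mod_cast hpe
    rw [this]
    exact hS p hp
  · rw [Set.not_nonempty_iff_eq_empty] at hne
    rw [hne, sInf_empty] at hb
    exact absurd hb (by simp)

theorem far_iff {t : ℝ} {m : ℕ} (hF : Pool.Agent.J6H61.GL.Far t m) :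
    Exceeds (g m) t ∧ Exceeds (h m) t := by
  constructor
  · have h1 := exceeds_sInf (S := {p : ℕ | ∃ r : ℕ, p.Prime ∧ r.Prime ∧ p + r = m}) (t := t) (by
      rintro p ⟨r, hp, hr, hpr⟩
      exact hF p r hp hr (Or.inl hpr))
    have e : g m = sInf {a : ℕ∞ | ∃ p ∈ {p : ℕ | ∃ r : ℕ, p.Prime ∧ r.Prime ∧ p + r = m},
        a = (p : ℕ∞)} := by
      unfold g
      congr 1
      ext a
      constructor
      · rintro ⟨p, r, h1, h2, h3, h4⟩
        exact ⟨p, ⟨r, h1, h2, h3⟩, h4⟩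
      · rintro ⟨p, ⟨r, h1, h2, h3⟩, h4⟩
        exact ⟨p, r, h1, h2, h3, h4⟩
    rw [e]
    exact h1
  · have h1 := exceeds_sInf (S := {p : ℕ | ∃ r : ℕ, p.Prime ∧ r.Prime ∧ m + p = r}) (t := t) (by
      rintro p ⟨r, hp, hr, hpr⟩
      exact hF p r hp hr (Or.inr hpr))
    have e : h m = sInf {a : ℕ∞ | ∃ p ∈ {p : ℕ | ∃ r : ℕ, p.Prime ∧ r.Prime ∧ m + p = r},
        a = (p : ℕ∞)} := by
      unfold h
      congr 1
      ext a
      constructor
      · rintro ⟨p, r, h1, h2, h3, h4⟩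
        exact ⟨p, ⟨r, h1, h2, h3⟩, h4⟩
      · rintro ⟨p, ⟨r, h1, h2, h3⟩, h4⟩
        exact ⟨p, r, h1, h2, h3, h4⟩
    rw [e]
    exact h1

theorem le_R (M X t : ℝ) (q a : ℕ) : (Pool.Agent.J6H61.GL.Prog M X t q a).ncard ≤ R M X t q a := by
  unfold R
  apply Set.ncard_le_ncard
  · rintro n ⟨h1, h2, h3⟩
    exact ⟨h1, h2, far_iff h3⟩
  · apply (Set.finite_Iic ⌊M + X⌋₊).subset
    intro n hn
    rw [Set.mem_Iic]
    exact Nat.le_floor hn.2.1

/-- **Large least primes in Goldbach representations.**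

(1) `T X K ≥ X exp (-exp (C K))` for all large `X`, uniformly for `1 ≤ K ≤ c log log X`.
(2) Uniformly for `1 ≤ K ≤ c log log X`, even `q` with `1 ≤ q ≤ log X`, all even `a`, all `t` with
`π(t) ≤ K (φ(q) / q) log X` and all `M ≥ √X`: `R M X t q a ≥ X exp (-exp (C K))`.
(3) For fixed `K, B ≥ 1` the same holds for all large `X`, all even `q` with `1 ≤ q ≤ X ^ B` and all even
`a ≤ q`. -/
theorem result :
    (∃ C c X₀ : ℝ, 0 < C ∧ 0 < c ∧ ∀ X : ℝ, X₀ ≤ X → ∀ K : ℝ, 1 ≤ K →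
      K ≤ c * Real.log (Real.log X) → X * Real.exp (-Real.exp (C * K)) ≤ T X K) ∧
    (∃ C c X₀ : ℝ, 0 < C ∧ 0 < c ∧ ∀ X : ℝ, X₀ ≤ X → ∀ K : ℝ, 1 ≤ K →
      K ≤ c * Real.log (Real.log X) → ∀ q a : ℕ, Even q → Even a → 1 ≤ q → (q : ℝ) ≤ Real.log X →
      ∀ t : ℝ, (Nat.primeCounting ⌊t⌋₊ : ℝ) ≤ K * ((q.totient : ℝ) / q) * Real.log X →
      ∀ M : ℝ, √X ≤ M → X * Real.exp (-Real.exp (C * K)) ≤ R M X t q a) ∧
    (∃ C : ℝ, 0 < C ∧ ∀ K B : ℝ, 1 ≤ K → 1 ≤ B → ∃ X₀ : ℝ, ∀ X : ℝ, X₀ ≤ X →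
      ∀ q a : ℕ, Even q → Even a → 1 ≤ q → (q : ℝ) ≤ X ^ B → a ≤ q →
      ∀ t : ℝ, (Nat.primeCounting ⌊t⌋₊ : ℝ) ≤ K * ((q.totient : ℝ) / q) * Real.log X →
      ∀ M : ℝ, √X ≤ M → X * Real.exp (-Real.exp (C * K)) ≤ R M X t q a) := by
  refine ⟨?_, ?_, ?_⟩
  · obtain ⟨C, c, X₀, hC, hc, H⟩ := Pool.Agent.J6H61.GL.part_three
    refine ⟨C, c, X₀, hC, hc, fun X hX K hK hKX => (H X hX K hK hKX).trans ?_⟩
    have : ({m : ℕ | Even m ∧ 4 ≤ m ∧ (m : ℝ) ≤ X ∧
      Pool.Agent.J6H61.GL.Far (K * (Real.log m * Real.log (Real.log m))) m} : Set ℕ).ncard ≤ T X K := by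
      unfold T
      apply Set.ncard_le_ncard
      · rintro m ⟨h1, h2, h3, h4⟩
        exact ⟨h1, h2, h3, far_iff h4⟩
      · apply (Set.finite_Iic ⌊X⌋₊).subset
        intro n hn
        rw [Set.mem_Iic]
        exact Nat.le_floor hn.2.2.1
    exact_mod_cast this
  · obtain ⟨C, c, X₀, hC, hc, H⟩ := Pool.Agent.J6H61.GL.part_one
    refine ⟨C, c, X₀, hC, hc, fun X hX K hK hKX q a hq ha hq1 hqX t ht M hM =>
      (H X hX K hK hKX q a hq ha hq1 hqX t ht M hM).trans ?_⟩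
    exact_mod_cast le_R M X t q a
  · obtain ⟨C, hC, H⟩ := Pool.Agent.J6H61.GL.part_two
    refine ⟨C, hC, fun K B hK hB => ?_⟩
    obtain ⟨X₀, H'⟩ := H K B hK hB
    refine ⟨X₀, fun X hX q a hq ha hq1 hqX haq t ht M hM =>
      (H' X hX q a hq ha hq1 hqX haq t ht M hM).trans ?_⟩
    exact_mod_cast le_R M X t q a

end Pool.Agent.Results.MP_bae66e_nt.LargeLeastPrimes
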